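import Pool.Agent.H24.CL.Targets

/-!
Row BD of the board clv_modules: chains with growth in the first three windows are rare.
-/

set_option autoImplicit false

open Finset MeasureTheory

namespace Pool.Agent.H33.CLV

open Pool.Agent.H24.CL

theorem qmin {Q : ℝ} (hQ : 1 < Q) (a : ℝ) : Q * min 1 (Q ^ a) = Q ^ (min 1 (1 + a)) := by
  have hQ0 : 0 < Q := by linarith
  rcases le_total 0 a with h | h
  · rw [min_eq_left (Real.one_le_rpow hQ.le h), min_eq_left (by linarith), Real.rpow_one, mul_one]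
  · rw [min_eq_right (Real.rpow_le_one_of_one_le_of_nonpos hQ.le h), min_eq_right (by linarith),
      Real.rpow_add hQ0, Real.rpow_one]

/-- one step in logarithms -/
theorem step_num {Q kap x : ℝ} (g p : ℕ → ℝ) (j : ℕ) {v0 v1 : ℝ} (hQ : 1 < Q)
    (hk : 16 ≤ Q ^ kap) (hv1 : 0 ≤ v1)
    (h1 : Q ^ 6 * v0 ≤ 400 * (Q ^ g j) ^ 3 * (Q * min 1 (Q ^ g (j + 1) / Q ^ (1 - p j))) ^ 2 *
      (Q * min 1 (Q * Q ^ g (j + 2) / (Q ^ (1 - p (j + 1)) * Q ^ (1 - p j)))) *
      (Q / Q ^ (1 - p j)) * v1)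
    (h2 : 16 * Q * Q ^ g (j + 1) ≤ (Q ^ (1 - p j)) ^ 2 → Q ^ 6 * v0 ≤ 400 * (Q ^ g j) ^ 3 *
      (Q * min 1 (Q * Q ^ g (j + 2) / (Q ^ (1 - p (j + 1)) * Q ^ (1 - p j)))) *
      (Q / Q ^ (1 - p j)) * v1)
    (h3 : 16 * Q * Q ^ g (j + 1) ≤ (Q ^ (1 - p j)) ^ 2 →
      12 * (Q ^ g (j + 1)) ^ 3 ≤ Q ^ (1 - p j) → Q ^ 6 * v0 ≤
      400 * (Q ^ g j) ^ 3 * Q ^ g (j + 1) * (Q / Q ^ (1 - p j)) ^ 3 * v1)
    (hx : Opt g p kap j x) :
    Q ^ 6 * v0 ≤ 400 * Q ^ (6 * (g j + p j) - x) * v1 := by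
  have hQ0 : 0 < Q := by linarith
  have e1 : Q * min 1 (Q ^ g (j + 1) / Q ^ (1 - p j)) = Q ^ (min 1 (g (j + 1) + p j)) := by
    rw [← Real.rpow_sub hQ0, qmin hQ]
    congr 2
    ring
  have e2 : Q * min 1 (Q * Q ^ g (j + 2) / (Q ^ (1 - p (j + 1)) * Q ^ (1 - p j))) =
      Q ^ (min 1 (g (j + 2) + p (j + 1) + p j)) := by
    have : Q * Q ^ g (j + 2) / (Q ^ (1 - p (j + 1)) * Q ^ (1 - p j)) =
        Q ^ (g (j + 2) + p (j + 1) + p j - 1) := by
      rw [← Real.rpow_add hQ0]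
      nth_rewrite 1 [← Real.rpow_one Q]
      rw [← Real.rpow_add hQ0, ← Real.rpow_sub hQ0]
      congr 1
      ring
    rw [this, qmin hQ]
    congr 2
    ring
  have e3 : Q / Q ^ (1 - p j) = Q ^ p j := by
    nth_rewrite 1 [← Real.rpow_one Q]
    rw [← Real.rpow_sub hQ0]
    congr 1
    ring
  have e4 : ∀ a : ℝ, (Q ^ a) ^ 3 = Q ^ (3 * a) := by
    intro a
    rw [mul_comm, Real.rpow_mul hQ0.le]
    norm_num
  have e5 : ∀ a : ℝ, (Q ^ a) ^ 2 = Q ^ (2 * a) := by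
    intro a
    rw [mul_comm, Real.rpow_mul hQ0.le]
    norm_num
  have c1 : g (j + 1) + 2 * p j ≤ 1 - kap → 16 * Q * Q ^ g (j + 1) ≤ (Q ^ (1 - p j)) ^ 2 := by
    intro h
    rw [e5]
    have h5 : Q ^ kap * Q * Q ^ g (j + 1) = Q ^ (kap + 1 + g (j + 1)) := by
      rw [Real.rpow_add hQ0, Real.rpow_add hQ0, Real.rpow_one]
    have h6 : Q ^ (kap + 1 + g (j + 1)) ≤ Q ^ (2 * (1 - p j)) :=
      Real.rpow_le_rpow_of_exponent_le hQ.le (by linarith)
    have h7 : 0 ≤ Q * Q ^ g (j + 1) := by positivity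
    calc 16 * Q * Q ^ g (j + 1) = 16 * (Q * Q ^ g (j + 1)) := by ring
      _ ≤ Q ^ kap * (Q * Q ^ g (j + 1)) := mul_le_mul_of_nonneg_right hk h7
      _ = Q ^ kap * Q * Q ^ g (j + 1) := by ring
      _ ≤ Q ^ (2 * (1 - p j)) := by rw [h5]; exact h6
  have c2 : 3 * g (j + 1) + p j ≤ 1 - kap → 12 * (Q ^ g (j + 1)) ^ 3 ≤ Q ^ (1 - p j) := by
    intro h
    rw [e4]
    have h5 : Q ^ kap * Q ^ (3 * g (j + 1)) = Q ^ (kap + 3 * g (j + 1)) := by
      rw [Real.rpow_add hQ0]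
    have h6 : Q ^ (kap + 3 * g (j + 1)) ≤ Q ^ (1 - p j) :=
      Real.rpow_le_rpow_of_exponent_le hQ.le (by linarith)
    have h7 : 0 ≤ Q ^ (3 * g (j + 1)) := by positivity
    calc 12 * Q ^ (3 * g (j + 1)) ≤ Q ^ kap * Q ^ (3 * g (j + 1)) :=
          mul_le_mul_of_nonneg_right (by linarith) h7
      _ ≤ Q ^ (1 - p j) := by rw [h5]; exact h6
  have fin : ∀ y : ℝ, Q ^ 6 * v0 ≤ 400 * Q ^ y * v1 → x ≤ 6 * (g j + p j) - y →
      Q ^ 6 * v0 ≤ 400 * Q ^ (6 * (g j + p j) - x) * v1 := by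
    intro y hy hxy
    refine hy.trans (mul_le_mul_of_nonneg_right ?_ hv1)
    refine mul_le_mul_of_nonneg_left ?_ (by norm_num)
    exact Real.rpow_le_rpow_of_exponent_le hQ.le (by linarith)
  rcases hx with hx | ⟨ha, hx⟩ | ⟨ha, hb, hx⟩
  · rw [e1, e2, e3, e4, e5] at h1
    refine fin (3 * g j + 2 * min 1 (g (j + 1) + p j) + min 1 (g (j + 2) + p (j + 1) + p j) + p j)
      ?_ (by linarith)
    rw [Real.rpow_add hQ0, Real.rpow_add hQ0, Real.rpow_add hQ0]
    refine h1.trans (le_of_eq ?_)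
    ring
  · have h2' := h2 (c1 ha)
    rw [e2, e3, e4] at h2'
    refine fin (3 * g j + min 1 (g (j + 2) + p (j + 1) + p j) + p j) ?_ (by linarith)
    rw [Real.rpow_add hQ0, Real.rpow_add hQ0]
    refine h2'.trans (le_of_eq ?_)
    ring
  · have h3' := h3 (c1 ha) (c2 hb)
    rw [e3, e4, e4] at h3'
    refine fin (3 * g j + g (j + 1) + 3 * p j) ?_ (by linarith)
    rw [Real.rpow_add hQ0, Real.rpow_add hQ0]
    refine h3'.trans (le_of_eq ?_)
    ring

theorem pf_BD (hGA : T_GA) (hST : T_ST) (hLA : T_LA) (hPH : T_PH) (hVC : T_VC) (hVA : T_VA)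
    (hTA : T_TA) (hEX : T_EX) : T_BD := by
  intro c₁ hc0 hc1
  obtain ⟨dG, DG, hdG, hGA1⟩ := hGA c₁ hc0 hc1
  refine ⟨min (dG / 2) 1, max DG 7, lt_min (by linarith) one_pos, ?_⟩
  intro D hD
  have hD1 : DG ≤ D := (le_max_left _ _).trans hD
  have hD7 : 7 ≤ D := (le_max_right _ _).trans hD
  have hD0 : 0 < D := by linarith
  obtain ⟨kap, hkap, hGA2⟩ := hGA1 D hD1
  -- the tail
  obtain ⟨th, hth⟩ : ∃ th : ℝ, th = min 1 (dG / (88 * D)) := ⟨_, rfl⟩
  have hth0 : 0 < th := by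
    rw [hth]
    exact lt_min one_pos (by positivity)
  have hth1 : th ≤ 1 := by rw [hth]; exact min_le_left _ _
  have hth2 : th * (22 * D) ≤ dG / 4 := by
    have h1 : th ≤ dG / (88 * D) := by rw [hth]; exact min_le_right _ _
    have h2 : th * (22 * D) ≤ dG / (88 * D) * (22 * D) :=
      mul_le_mul_of_nonneg_right h1 (by positivity)
    have h3 : dG / (88 * D) * (22 * D) = dG / 4 := by
      field_simp
      ring
    linarith
  obtain ⟨C, hC1, hTA1⟩ := hTA 3 th le_rfl hth0 hth1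
  refine ⟨min kap (min (dG / (1440 * D)) (1 / (60 * D))), ?_, ?_⟩
  · refine lt_min hkap (lt_min (by positivity) (by positivity))
  intro ε T m hε hε0 hT hm
  have hεk : ε ≤ kap := hε0.trans (min_le_left _ _)
  have hε1 : ε ≤ dG / (1440 * D) := hε0.trans ((min_le_right _ _).trans (min_le_left _ _))
  have hε2 : ε ≤ 1 / (60 * D) := hε0.trans ((min_le_right _ _).trans (min_le_right _ _))
  have hm0 : (0 : ℝ) ≤ m := Nat.cast_nonneg _
  have hεm : 18 * ε * m ≤ dG / 8 := by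
    have h1 : ε * m ≤ dG / (1440 * D) * (10 * D) := mul_le_mul hε1 hm hm0 (by positivity)
    have h2 : dG / (1440 * D) * (10 * D) = dG / 144 := by
      field_simp
      norm_num
    linarith
  have hεm2 : 3 * ε * m ≤ 1 / 2 := by
    have h1 : ε * m ≤ 1 / (60 * D) * (10 * D) := mul_le_mul hε2 hm hm0 (by positivity)
    have h2 : 1 / (60 * D) * (10 * D) = 1 / 6 := by
      field_simp
      norm_num
    linarith
  -- the constants
  obtain ⟨K1, hK1⟩ : ∃ K1 : ℝ, K1 = 2 ^ (12 * m) * (400 * T ^ 12) ^ m * C := ⟨_, rfl⟩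
  obtain ⟨K2, hK2⟩ : ∃ K2 : ℝ, K2 = 2 * (4 * T ^ 2) ^ m := ⟨_, rfl⟩
  have ev : ∀ a K : ℝ, 0 < a → ∃ q₀ : ℕ, ∀ q : ℕ, q₀ ≤ q → K ≤ (q : ℝ) ^ a := by
    intro a K ha
    have h1 : Filter.Tendsto (fun q : ℕ => (q : ℝ) ^ a) Filter.atTop Filter.atTop :=
      (tendsto_rpow_atTop ha).comp tendsto_natCast_atTop_atTop
    obtain ⟨q₀, hq₀⟩ := Filter.eventually_atTop.1 (h1.eventually_ge_atTop K)
    exact ⟨q₀, fun q hq => hq₀ q hq⟩
  obtain ⟨qa, hqa⟩ := ev kap 16 hkap
  obtain ⟨qb, hqb⟩ := ev (dG / 8) K1 (by positivity)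
  obtain ⟨qc, hqc⟩ := ev (1 / 2) K2 (by norm_num)
  refine ⟨max (max qa qb) (max qc 4), ?_⟩
  intro q L t₀ W A n hq hqp hL ht₀ hlo hhi hmL hch hgr
  have hq1 : qa ≤ q := ((le_max_left _ _).trans (le_max_left _ _)).trans hq
  have hq2 : qb ≤ q := ((le_max_right _ _).trans (le_max_left _ _)).trans hq
  have hq3 : qc ≤ q := ((le_max_left _ _).trans (le_max_right _ _)).trans hq
  have hq4 : 4 ≤ q := ((le_max_right _ _).trans (le_max_right _ _)).trans hq
  have hk16 := hqa q hq1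
  have hKb := hqb q hq2
  have hKc := hqc q hq3
  obtain ⟨Q, hQ⟩ : ∃ Q : ℝ, Q = (q : ℝ) := ⟨_, rfl⟩
  have hQ4 : (4 : ℝ) ≤ Q := by rw [hQ]; exact_mod_cast hq4
  have hQ1 : 1 < Q := by linarith
  have hQ0 : 0 < Q := by linarith
  have hL0 : (0 : ℝ) < L := by exact_mod_cast hL
  rw [← hQ] at hk16 hKb hKc hlo hhi
  -- nonempty classes
  by_cases hne0 : (W 0).Nonempty
  swap
  · rw [Set.not_nonempty_iff_eq_empty] at hne0
    rw [hne0, measureReal_empty, mul_zero]
    positivity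
  have hne : ∀ j ≤ m, (W j).Nonempty := by
    classical
    intro j
    induction j with
    | zero => intro _; exact hne0
    | succ j ih =>
      intro hj
      obtain ⟨w, hw⟩ := ih (by omega)
      have h1 := hch.card_lo j (by omega) w hw
      have h2 := hch.one_le j (by omega)
      have h3 : (1 : ℝ) ≤ ((pos q (W (j + 1)) w).card : ℝ) := h2.trans h1
      have h4 : 1 ≤ (pos q (W (j + 1)) w).card := by exact_mod_cast h3
      obtain ⟨b, hb⟩ := Finset.card_pos.1 h4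
      unfold pos at hb
      exact ⟨_, (Finset.mem_filter.1 hb).2⟩
  obtain ⟨rho, hrho⟩ : ∃ rho : ℝ, rho = (q : ℝ) ^ ε := ⟨_, rfl⟩
  rw [← hrho] at hch hgr
  have hrho1 : 1 ≤ rho := by
    rw [hrho, ← hQ]
    exact Real.one_le_rpow hQ1.le hε.le
  have hrho0 : 0 < rho := by linarith
  have hT0 : 0 < T := by linarith
  have hA0 : ∀ j ≤ m, 0 < A j := fun j hj => lt_of_lt_of_le (by positivity) (hch.A_lo j hj)
  have hla := hLA 3 q m L T rho t₀ W A n (by norm_num) (by omega) hL hT hrho1 ht₀ hch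
  have hph := hPH 3 q m L T rho t₀ W A n (by norm_num) hqp (by omega) hL hT hrho1 ht₀ hch
  have hn1 : ∀ j < m, 1 ≤ n j := hch.one_le
  have hnq : ∀ j < m, n j ≤ Q := by
    intro j hj
    rw [hQ]
    exact hch.n_le j hj
  have hG1 : ∀ j < m, 1 ≤ Gr q T rho A n j := fun j hj => ((hla j hj).2.2 (hne j hj.le)).1
  -- logarithms
  obtain ⟨g, hg⟩ : ∃ g : ℕ → ℝ, g = fun j =>
    if j < m then Real.logb Q (Gr q T rho A n j) else 0 := ⟨_, rfl⟩
  obtain ⟨p, hp⟩ : ∃ p : ℕ → ℝ, p = fun j => if j < m then 1 - Real.logb Q (n j) else 0 :=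
    ⟨_, rfl⟩
  have hgj : ∀ j < m, Q ^ g j = Gr q T rho A n j := by
    intro j hj
    rw [hg]
    simp only [hj, if_true]
    exact Real.rpow_logb hQ0 hQ1.ne' (by linarith [hG1 j hj])
  have hpj : ∀ j < m, Q ^ (1 - p j) = n j := by
    intro j hj
    rw [hp]
    simp only [hj, if_true]
    rw [sub_sub_cancel]
    exact Real.rpow_logb hQ0 hQ1.ne' (by linarith [hn1 j hj])
  have hg0 : ∀ j, 0 ≤ g j := by
    intro j
    rw [hg]
    by_cases hj : j < m
    · simp only [hj, if_true]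
      exact Real.logb_nonneg hQ1 (hG1 j hj)
    · simp only [hj, if_false]
      exact le_rfl
  have hp0 : ∀ j, 0 ≤ p j ∧ p j ≤ 1 := by
    intro j
    rw [hp]
    by_cases hj : j < m
    · simp only [hj, if_true]
      have h1 : 0 ≤ Real.logb Q (n j) := Real.logb_nonneg hQ1 (hn1 j hj)
      have h2 : Real.logb Q (n j) ≤ Real.logb Q Q :=
        Real.logb_le_logb_of_le hQ1 (by linarith [hn1 j hj]) (hnq j hj)
      rw [Real.logb_self_eq_one hQ1] at h2
      exact ⟨by linarith, by linarith⟩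
    · simp only [hj, if_false]
      exact ⟨le_rfl, zero_le_one⟩
  have hpg : ∀ j < m, p j ≤ g j + kap := by
    intro j hj
    have h1 := ((hla j hj).2.2 (hne j hj.le)).2
    rw [← hgj j hj, ← hpj j hj, hrho, ← hQ, ← Real.rpow_add hQ0, ← Real.rpow_add hQ0] at h1
    have h2 : Q ^ (1 : ℝ) ≤ Q ^ (ε + (1 - p j) + g j) := by
      rw [Real.rpow_one]
      exact h1
    rw [Real.rpow_le_rpow_left_iff hQ1] at h2
    linarith
  -- amplitudes of successive classes
  have hAA : ∀ j < m, A (j + 1) ^ 2 * (T ^ 2 * rho ^ 3) = A j ^ 2 * Q ^ (g j + p j) := by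
    intro j hj
    have h1 : Q ^ (g j + p j) = Gr q T rho A n j * (Q / n j) := by
      have h2 : Q / n j = Q ^ p j := by
        rw [← hpj j hj]
        nth_rewrite 1 [← Real.rpow_one Q]
        rw [← Real.rpow_sub hQ0]
        congr 1
        ring
      rw [h2, ← hgj j hj, Real.rpow_add hQ0]
    rw [h1]
    unfold Gr
    rw [← hQ]
    have h3 : A j ≠ 0 := (hA0 j hj.le).ne'
    have h4 : n j ≠ 0 := by
      have := hn1 j hj
      linarith
    field_simp
  -- the product of all growths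
  have hprodA : ∀ i ≤ m, A i ^ 2 * (T ^ 2 * rho ^ 3) ^ i =
      A 0 ^ 2 * Q ^ (∑ j ∈ range i, (g j + p j)) := by
    intro i
    induction i with
    | zero => intro _; simp
    | succ i ih =>
      intro hi
      have h1 := ih (by omega)
      have h2 := hAA i (by omega)
      rw [Finset.sum_range_succ, Real.rpow_add hQ0, pow_succ]
      calc A (i + 1) ^ 2 * ((T ^ 2 * rho ^ 3) ^ i * (T ^ 2 * rho ^ 3))
          = (A (i + 1) ^ 2 * (T ^ 2 * rho ^ 3)) * (T ^ 2 * rho ^ 3) ^ i := by ring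
        _ = (A i ^ 2 * (T ^ 2 * rho ^ 3) ^ i) * Q ^ (g i + p i) := by rw [h2]; ring
        _ = A 0 ^ 2 * (Q ^ (∑ j ∈ range i, (g j + p j)) * Q ^ (g i + p i)) := by
            rw [h1]; ring
  have hQm : ((q : ℝ)) ^ m = Q ^ (m : ℝ) := by rw [Real.rpow_natCast, hQ]
  have hA0t : t₀ ^ 2 ≤ 4 ^ m * A 0 ^ 2 := by
    have h1 := hch.A_lo 0 (Nat.zero_le _)
    have h2 : t₀ ≤ 2 ^ m * A 0 := by
      rw [div_le_iff₀ (by positivity)] at h1
      linarith
    calc t₀ ^ 2 ≤ (2 ^ m * A 0) ^ 2 := pow_le_pow_left₀ ht₀.le h2 2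
      _ = 4 ^ m * A 0 ^ 2 := by
          rw [mul_pow, ← pow_mul, mul_comm m 2, pow_mul]
          norm_num
  have hTr : (T ^ 2 * rho ^ 3) ^ m * 4 ^ m = (4 * T ^ 2) ^ m * Q ^ (3 * ε * m) := by
    have h1 : (rho ^ 3) ^ m = Q ^ (3 * ε * m) := by
      rw [← pow_mul, hrho, ← hQ, ← Real.rpow_natCast (Q ^ ε) (3 * m), ← Real.rpow_mul hQ0.le]
      congr 1
      push_cast
      ring
    rw [mul_pow, h1, mul_pow]
    ring
  have hsmall : (4 * T ^ 2) ^ m * Q ^ (3 * ε * m) ≤ Q ^ (1 : ℝ) / 2 := by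
    have h1 : (4 * T ^ 2) ^ m ≤ Q ^ (1 / 2 : ℝ) / 2 := by
      rw [hK2] at hKc
      linarith
    have h2 : Q ^ (3 * ε * m) ≤ Q ^ (1 / 2 : ℝ) :=
      Real.rpow_le_rpow_of_exponent_le hQ1.le hεm2
    have h3 : Q ^ (1 : ℝ) = Q ^ (1 / 2 : ℝ) * Q ^ (1 / 2 : ℝ) := by
      rw [← Real.rpow_add hQ0]
      norm_num
    have h4 : 0 ≤ Q ^ (3 * ε * m) := by positivity
    have h5 : 0 ≤ Q ^ (1 / 2 : ℝ) := by positivity
    calc (4 * T ^ 2) ^ m * Q ^ (3 * ε * m) ≤ (Q ^ (1 / 2 : ℝ) / 2) * Q ^ (1 / 2 : ℝ) :=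
          mul_le_mul h1 h2 h4 (by positivity)
      _ = Q ^ (1 : ℝ) / 2 := by rw [h3]; ring
  -- either the class is in the exceptional set of the variance lemma, or the growths are small
  have hkey : (((q : ℝ) ^ m * L) ^ 6 * t₀ ^ 12 * volume.real (W 0) ≤
      (q : ℝ) ^ (-(min (dG / 2) 1))) ∨ D - 4 ≤ ∑ j ∈ range m, (1 - g j) := by
    have hsumg : ∑ j ∈ range m, (1 - g j) = m - ∑ j ∈ range m, g j := by
      rw [Finset.sum_sub_distrib, Finset.sum_const, Finset.card_range, nsmul_eq_mul, mul_one]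
    have hNt : Q ^ (D - 1) ≤ Q ^ (m : ℝ) * L * t₀ ^ 2 := by
      rw [← hQm, hQ]
      rw [hQ] at hlo
      exact hlo
    rcases hmL with hm8 | hL2
    · by_cases hsub : W 0 ⊆ {a : X 3 | 2 * ((q ^ m : ℕ) : ℝ) * L ≤
          ∑ B ∈ range (q ^ m), ‖fc (q ^ m) B L a‖ ^ 2}
      · left
        have h1 := hVA 3 (q ^ m) L (by norm_num) (Nat.one_le_pow _ _ (by omega)) hL
        have h2 : volume.real (W 0) ≤ 1 / ((q ^ m : ℕ) : ℝ) :=
          (measureReal_mono hsub (measure_ne_top _ _)).trans h1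
        have h3 : ((q : ℝ) ^ m * L) ^ 6 * t₀ ^ 12 = (((q : ℝ) ^ m * L) * t₀ ^ 2) ^ 6 := by ring
        have h4 : (((q : ℝ) ^ m * L) * t₀ ^ 2) ^ 6 ≤ Q ^ (6 * (D + 1)) := by
          have h5 : (((q : ℝ) ^ m * L) * t₀ ^ 2) ^ 6 ≤ (Q ^ (D + 1)) ^ 6 := by
            refine pow_le_pow_left₀ (by positivity) ?_ 6
            rw [← hQ]
            exact hhi
          refine h5.trans (le_of_eq ?_)
          rw [← Real.rpow_natCast (Q ^ (D + 1)) 6, ← Real.rpow_mul hQ0.le]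
          congr 1
          push_cast
          ring
        have h5 : 1 / ((q ^ m : ℕ) : ℝ) = Q ^ (-(m : ℝ)) := by
          rw [Nat.cast_pow, hQm, Real.rpow_neg hQ0.le, one_div]
        rw [h5] at h2
        rw [h3]
        calc (((q : ℝ) ^ m * L) * t₀ ^ 2) ^ 6 * volume.real (W 0)
            ≤ Q ^ (6 * (D + 1)) * Q ^ (-(m : ℝ)) :=
              mul_le_mul h4 h2 measureReal_nonneg (by positivity)
          _ = Q ^ (6 * (D + 1) + -(m : ℝ)) := (Real.rpow_add hQ0 _ _).symm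
          _ ≤ Q ^ (-(min (dG / 2) 1)) := by
              refine Real.rpow_le_rpow_of_exponent_le hQ1.le ?_
              have := min_le_right (dG / 2) 1
              linarith
          _ = (q : ℝ) ^ (-(min (dG / 2) 1)) := by rw [hQ]
      · right
        rw [Set.not_subset] at hsub
        obtain ⟨w, hw, hw2⟩ := hsub
        rw [Set.mem_ofPred_eq, not_le] at hw2
        have h1 := hVC 3 q m L T rho t₀ W A n (by norm_num) (by omega) hL hT hrho1 ht₀ hch w hw
        have h2 : (∏ j ∈ range m, n j) * (A m * L) ^ 2 ≤ 2 * (Q ^ (m : ℝ) * L) := by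
          refine h1.trans (hw2.le.trans (le_of_eq ?_))
          rw [Nat.cast_pow, hQm]
          ring
        have h3 : ∏ j ∈ range m, n j = Q ^ ((m : ℝ) - ∑ j ∈ range m, p j) := by
          have h4 : ∀ i ≤ m, ∏ j ∈ range i, n j = Q ^ ((i : ℝ) - ∑ j ∈ range i, p j) := by
            intro i
            induction i with
            | zero => intro _; simp
            | succ i ih =>
              intro hi
              rw [Finset.prod_range_succ, ih (by omega), ← hpj i (by omega), ← Real.rpow_add hQ0,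
                Finset.sum_range_succ]
              congr 1
              push_cast
              ring
          exact h4 m le_rfl
        have h4 := hprodA m le_rfl
        -- A m ^ 2 * prod n * (T^2 rho^3)^m = A 0 ^2 Q^(m + sum g)
        have h5 : (∏ j ∈ range m, n j) * A m ^ 2 * (T ^ 2 * rho ^ 3) ^ m =
            A 0 ^ 2 * Q ^ ((m : ℝ) + ∑ j ∈ range m, g j) := by
          rw [h3, mul_assoc, h4]
          have : Q ^ ((m : ℝ) + ∑ j ∈ range m, g j) =
              Q ^ ((m : ℝ) - ∑ j ∈ range m, p j) * Q ^ (∑ j ∈ range m, (g j + p j)) := by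
            rw [← Real.rpow_add hQ0, Finset.sum_add_distrib]
            congr 1
            ring
          rw [this]
          ring
        have h6 : A 0 ^ 2 * Q ^ ((m : ℝ) + ∑ j ∈ range m, g j) * L ≤
            2 * Q ^ (m : ℝ) * (T ^ 2 * rho ^ 3) ^ m := by
          rw [← h5]
          have h7 : 0 < (T ^ 2 * rho ^ 3) ^ m := by positivity
          have h8 : ((∏ j ∈ range m, n j) * A m ^ 2 * L) * L ≤ (2 * Q ^ (m : ℝ)) * L := by
            calc ((∏ j ∈ range m, n j) * A m ^ 2 * L) * L =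
                  (∏ j ∈ range m, n j) * (A m * L) ^ 2 := by ring
              _ ≤ 2 * (Q ^ (m : ℝ) * L) := h2
              _ = (2 * Q ^ (m : ℝ)) * L := by ring
          have h9 := le_of_mul_le_mul_right h8 hL0
          calc (∏ j ∈ range m, n j) * A m ^ 2 * (T ^ 2 * rho ^ 3) ^ m * L =
                ((∏ j ∈ range m, n j) * A m ^ 2 * L) * (T ^ 2 * rho ^ 3) ^ m := by ring
            _ ≤ (2 * Q ^ (m : ℝ)) * (T ^ 2 * rho ^ 3) ^ m :=
                mul_le_mul_of_nonneg_right h9 h7.le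
        have h7 : Q ^ (D - 1) * Q ^ (∑ j ∈ range m, g j) ≤ Q ^ (m : ℝ) * Q ^ (1 : ℝ) := by
          have h8 : Q ^ ((m : ℝ) + ∑ j ∈ range m, g j) =
              Q ^ (m : ℝ) * Q ^ (∑ j ∈ range m, g j) := Real.rpow_add hQ0 _ _
          have h9 : 0 < Q ^ (∑ j ∈ range m, g j) := Real.rpow_pos_of_pos hQ0 _
          have h10 : 0 < Q ^ (m : ℝ) := Real.rpow_pos_of_pos hQ0 _
          calc Q ^ (D - 1) * Q ^ (∑ j ∈ range m, g j)
              ≤ (Q ^ (m : ℝ) * L * t₀ ^ 2) * Q ^ (∑ j ∈ range m, g j) :=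
                mul_le_mul_of_nonneg_right hNt h9.le
            _ ≤ (Q ^ (m : ℝ) * L * (4 ^ m * A 0 ^ 2)) * Q ^ (∑ j ∈ range m, g j) := by
                refine mul_le_mul_of_nonneg_right ?_ h9.le
                exact mul_le_mul_of_nonneg_left hA0t (by positivity)
            _ = 4 ^ m * (A 0 ^ 2 * Q ^ ((m : ℝ) + ∑ j ∈ range m, g j) * L) := by
                rw [h8]; ring
            _ ≤ 4 ^ m * (2 * Q ^ (m : ℝ) * (T ^ 2 * rho ^ 3) ^ m) :=
                mul_le_mul_of_nonneg_left h6 (by positivity)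
            _ = 2 * Q ^ (m : ℝ) * ((T ^ 2 * rho ^ 3) ^ m * 4 ^ m) := by ring
            _ ≤ 2 * Q ^ (m : ℝ) * (Q ^ (1 : ℝ) / 2) := by
                rw [hTr]
                exact mul_le_mul_of_nonneg_left hsmall (by positivity)
            _ = Q ^ (m : ℝ) * Q ^ (1 : ℝ) := by ring
        rw [← Real.rpow_add hQ0, ← Real.rpow_add hQ0, Real.rpow_le_rpow_left_iff hQ1] at h7
        rw [hsumg]
        linarith
    · right
      obtain ⟨w, hw⟩ := hne m le_rfl
      have h1 := hch.lo m le_rfl w hw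
      have h2 : A m ≤ 1 := h1.trans (hEX.2.2.2.2.2.2.2.2 3 _ w)
      have h4 := hprodA m le_rfl
      have hL2' : (L : ℝ) ≤ Q ^ (2 : ℝ) := by
        rw [hQ]
        have : ((L : ℕ) : ℝ) ≤ ((q ^ 2 : ℕ) : ℝ) := by exact_mod_cast hL2
        rw [Nat.cast_pow] at this
        rw [show (2 : ℝ) = ((2 : ℕ) : ℝ) by norm_num, Real.rpow_natCast]
        exact this
      have h5 : A m ^ 2 ≤ 1 := pow_le_one₀ (hA0 m le_rfl).le h2
      have h6 : A 0 ^ 2 * Q ^ (∑ j ∈ range m, (g j + p j)) ≤ (T ^ 2 * rho ^ 3) ^ m := by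
        rw [← h4]
        have : 0 < (T ^ 2 * rho ^ 3) ^ m := by positivity
        exact mul_le_of_le_one_left this.le h5
      have h7 : Q ^ (D - 1) * Q ^ (∑ j ∈ range m, (g j + p j)) ≤
          Q ^ (m : ℝ) * Q ^ (2 : ℝ) * Q ^ (1 : ℝ) := by
        have h9 : 0 < Q ^ (∑ j ∈ range m, (g j + p j)) := Real.rpow_pos_of_pos hQ0 _
        have h10 : 0 < Q ^ (m : ℝ) := Real.rpow_pos_of_pos hQ0 _
        have h11 : 0 < Q ^ (1 : ℝ) := Real.rpow_pos_of_pos hQ0 _
        calc Q ^ (D - 1) * Q ^ (∑ j ∈ range m, (g j + p j))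
            ≤ (Q ^ (m : ℝ) * L * t₀ ^ 2) * Q ^ (∑ j ∈ range m, (g j + p j)) :=
              mul_le_mul_of_nonneg_right hNt h9.le
          _ ≤ (Q ^ (m : ℝ) * L * (4 ^ m * A 0 ^ 2)) * Q ^ (∑ j ∈ range m, (g j + p j)) := by
              refine mul_le_mul_of_nonneg_right ?_ h9.le
              exact mul_le_mul_of_nonneg_left hA0t (by positivity)
          _ = Q ^ (m : ℝ) * L * (4 ^ m * (A 0 ^ 2 * Q ^ (∑ j ∈ range m, (g j + p j)))) := by ring
          _ ≤ Q ^ (m : ℝ) * L * (4 ^ m * (T ^ 2 * rho ^ 3) ^ m) := by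
              refine mul_le_mul_of_nonneg_left ?_ (by positivity)
              exact mul_le_mul_of_nonneg_left h6 (by positivity)
          _ = Q ^ (m : ℝ) * L * ((T ^ 2 * rho ^ 3) ^ m * 4 ^ m) := by ring
          _ ≤ Q ^ (m : ℝ) * L * (Q ^ (1 : ℝ) / 2) := by
              rw [hTr]
              exact mul_le_mul_of_nonneg_left hsmall (by positivity)
          _ ≤ Q ^ (m : ℝ) * Q ^ (2 : ℝ) * (Q ^ (1 : ℝ) / 2) := by
              refine mul_le_mul_of_nonneg_right ?_ (by positivity)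
              exact mul_le_mul_of_nonneg_left hL2' h10.le
          _ ≤ Q ^ (m : ℝ) * Q ^ (2 : ℝ) * Q ^ (1 : ℝ) := by
              exact mul_le_mul_of_nonneg_left (half_le_self h11.le) (by positivity)
      rw [← Real.rpow_add hQ0, ← Real.rpow_add hQ0, ← Real.rpow_add hQ0,
        Real.rpow_le_rpow_left_iff hQ1, Finset.sum_add_distrib] at h7
      have h8 : 0 ≤ ∑ j ∈ range m, p j := Finset.sum_nonneg fun j _ => (hp0 j).1
      rw [hsumg]
      linarith
  rcases hkey with hkey | hkey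
  · exact hkey
  -- the length is at least three
  have hm3 : 3 ≤ m := by
    have h1 : ∑ j ∈ range m, (1 - g j) ≤ ∑ _j ∈ range m, (1 : ℝ) :=
      Finset.sum_le_sum fun j _ => by linarith [hg0 j]
    rw [Finset.sum_const, Finset.card_range, nsmul_eq_mul, mul_one] at h1
    have h2 : (3 : ℝ) ≤ m := by linarith
    exact_mod_cast h2
  obtain ⟨l, hl3, hl⟩ := hgr
  have hlg : c₁ ≤ g l := by
    rw [← hgj l (by omega), ← hQ, Real.rpow_le_rpow_left_iff hQ1] at hl
    exact hl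
  obtain ⟨n', x, hn', hopt, hsum⟩ := hGA2 m g p hm hg0 hp0 hpg hkey ⟨l, hl3, hlg⟩
  -- the steps
  obtain ⟨F, hF⟩ : ∃ F : ℕ → ℝ, F = fun j =>
    (Q ^ (m - j) * L) ^ 6 * volume.real (W j) * A j ^ 12 := ⟨_, rfl⟩
  have hFstep : ∀ j < n', F j ≤ (400 * (T ^ 2 * rho ^ 3) ^ 6) * Q ^ (-x j) * F (j + 1) := by
    intro j hj
    have hjm : j + 2 < m := by omega
    have hst := hST q hqp (by omega) (fun i => W (j + i)) (Gr q T rho A n j)
      (Gr q T rho A n (j + 1)) (Gr q T rho A n (j + 2)) (n j) (n (j + 1))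
      (hch.meas j (by omega)) (hch.meas (j + 1) (by omega)) (hG1 j (by omega))
      (hG1 (j + 1) (by omega)) (hG1 (j + 2) hjm) (hn1 j (by omega)) (by
        have := hnq j (by omega)
        rw [hQ] at this
        exact this) (hn1 (j + 1) (by omega)) (by
        have := hnq (j + 1) (by omega)
        rw [hQ] at this
        exact this)
      (by
        have h1 := hph j (by omega)
        have h2 : ((Nat.factorial 3 : ℕ) : ℝ) = 6 := by norm_num [Nat.factorial]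
        rw [h2] at h1
        exact h1)
      (by
        have h1 := hph (j + 1) (by omega)
        have h2 : ((Nat.factorial 3 : ℕ) : ℝ) = 6 := by norm_num [Nat.factorial]
        rw [h2] at h1
        exact h1)
      (hla (j + 1) (by omega)).1 (hla (j + 2) hjm).1 (hla j (by omega)).2.1
      (hla (j + 1) (by omega)).2.1
    simp only [Nat.add_zero] at hst
    rw [← hQ] at hst
    have hnum := step_num (Q := Q) (kap := kap) (x := x j) g p j (v0 := volume.real (W j))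
      (v1 := volume.real (W (j + 1))) hQ1 hk16 measureReal_nonneg (by
        rw [hgj j (by omega), hgj (j + 1) (by omega), hgj (j + 2) hjm, hpj j (by omega),
          hpj (j + 1) (by omega)]
        exact hst.1) (by
        rw [hgj j (by omega), hgj (j + 1) (by omega), hgj (j + 2) hjm, hpj j (by omega),
          hpj (j + 1) (by omega)]
        exact hst.2.1) (by
        rw [hgj j (by omega), hgj (j + 1) (by omega), hpj j (by omega)]
        exact hst.2.2) (hopt j hj)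
    have hpow : Q ^ (m - j) = Q * Q ^ (m - (j + 1)) := by
      rw [← pow_succ']
      congr 1
      omega
    rw [hF]
    simp only
    rw [hpow]
    obtain ⟨B, hB⟩ : ∃ B : ℝ, B = (Q ^ (m - (j + 1)) * (L : ℝ)) ^ 6 := ⟨_, rfl⟩
    have hB0 : 0 ≤ B := by rw [hB]; positivity
    have h1 : (Q * Q ^ (m - (j + 1)) * (L : ℝ)) ^ 6 = B * Q ^ 6 := by
      rw [hB]
      ring
    rw [h1, ← hB]
    have h2 : Q ^ (6 * (g j + p j) - x j) = (Q ^ (g j + p j)) ^ 6 * Q ^ (-x j) := by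
      rw [sub_eq_add_neg, Real.rpow_add hQ0, mul_comm (6 : ℝ), Real.rpow_mul hQ0.le]
      norm_num
    have h3 : A j ^ 12 * (Q ^ (g j + p j)) ^ 6 = A (j + 1) ^ 12 * (T ^ 2 * rho ^ 3) ^ 6 := by
      have h4 := hAA j (by omega)
      calc A j ^ 12 * (Q ^ (g j + p j)) ^ 6 = (A j ^ 2 * Q ^ (g j + p j)) ^ 6 := by ring
        _ = (A (j + 1) ^ 2 * (T ^ 2 * rho ^ 3)) ^ 6 := by rw [h4]
        _ = A (j + 1) ^ 12 * (T ^ 2 * rho ^ 3) ^ 6 := by ring
    have hAj : 0 ≤ A j ^ 12 := by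
      have := hA0 j (by omega)
      positivity
    calc B * Q ^ 6 * volume.real (W j) * A j ^ 12 =
          (B * A j ^ 12) * (Q ^ 6 * volume.real (W j)) := by ring
      _ ≤ (B * A j ^ 12) * (400 * Q ^ (6 * (g j + p j) - x j) * volume.real (W (j + 1))) :=
          mul_le_mul_of_nonneg_left hnum (mul_nonneg hB0 hAj)
      _ = 400 * B * Q ^ (-x j) * volume.real (W (j + 1)) *
            (A j ^ 12 * (Q ^ (g j + p j)) ^ 6) := by rw [h2]; ring
      _ = 400 * (T ^ 2 * rho ^ 3) ^ 6 * Q ^ (-x j) *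
            (B * volume.real (W (j + 1)) * A (j + 1) ^ 12) := by rw [h3]; ring
  have hF0 : ∀ j ≤ m, 0 ≤ F j := by
    intro j hj
    rw [hF]
    have := hA0 j hj
    have := measureReal_nonneg (μ := (volume : Measure (X 3))) (s := W j)
    simp only
    positivity
  obtain ⟨K, hK⟩ : ∃ K : ℝ, K = 400 * (T ^ 2 * rho ^ 3) ^ 6 := ⟨_, rfl⟩
  have hKone : 1 ≤ K := by
    rw [hK]
    have h1 : 1 ≤ T ^ 2 * rho ^ 3 := by
      have h2 : 1 ≤ T ^ 2 := one_le_pow₀ hT
      have h3 : 1 ≤ rho ^ 3 := one_le_pow₀ hrho1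
      exact one_le_mul_of_one_le_of_one_le h2 h3
    have h2 : 1 ≤ (T ^ 2 * rho ^ 3) ^ 6 := one_le_pow₀ h1
    linarith
  have hK0 : 0 < K := by linarith
  have hind : ∀ i ≤ n', F 0 ≤ K ^ i * Q ^ (-∑ j ∈ range i, x j) * F i := by
    intro i
    induction i with
    | zero => intro _; simp
    | succ i ih =>
      intro hi
      have h1 := ih (by omega)
      have h2 := hFstep i (by omega)
      rw [← hK] at h2
      have h3 : 0 ≤ K ^ i * Q ^ (-∑ j ∈ range i, x j) := by positivity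
      refine h1.trans ((mul_le_mul_of_nonneg_left h2 h3).trans (le_of_eq ?_))
      rw [Finset.sum_range_succ, neg_add, Real.rpow_add hQ0, pow_succ]
      ring
  -- the last class
  have hFn : F n' ≤ C * Q ^ (dG / 4) := by
    have h1 := hTA1 (q ^ (m - n') * L) (A n') (Nat.one_le_iff_ne_zero.2 (by
      have : 0 < q ^ (m - n') * L := Nat.mul_pos (pow_pos (by omega) _) (by omega)
      omega)) (hA0 n' (by omega))
    have hKN : KN 3 = 6 := by decide
    rw [hKN] at h1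
    have h2 : W n' ⊆ {a : X 3 | A n' ≤ ‖u (q ^ (m - n') * L) a‖} := fun w hw =>
      hch.lo n' (by omega) w hw
    have h3 : volume.real (W n') ≤
        volume.real {a : X 3 | A n' ≤ ‖u (q ^ (m - n') * L) a‖} :=
      measureReal_mono h2 (measure_ne_top _ _)
    have hN : ((q ^ (m - n') * L : ℕ) : ℝ) = Q ^ (m - n') * L := by
      rw [Nat.cast_mul, Nat.cast_pow, hQ]
    rw [hN] at h1
    have hAn := hA0 n' (by omega)
    have h4 : F n' ≤ C * (Q ^ (m - n') * L * A n' ^ 2) ^ th := by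
      refine le_trans ?_ h1
      rw [hF]
      simp only
      calc (Q ^ (m - n') * (L : ℝ)) ^ 6 * volume.real (W n') * A n' ^ 12 =
            (Q ^ (m - n') * (L : ℝ)) ^ 6 * A n' ^ 12 * volume.real (W n') := by ring
        _ ≤ (Q ^ (m - n') * (L : ℝ)) ^ 6 * A n' ^ (2 * 6) *
              volume.real {a : X 3 | A n' ≤ ‖u (q ^ (m - n') * L) a‖} := by
            refine mul_le_mul_of_nonneg_left h3 (by positivity)
    have h5 : Q ^ (m - n') * L * A n' ^ 2 ≤ Q ^ (22 * D) := by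
      have h6 : A n' ≤ t₀ * Q ^ m := by
        rw [hQ]
        exact hch.A_hi n' (by omega)
      have h7 : Q ^ (m - n') ≤ Q ^ m := pow_le_pow_right₀ hQ1.le (Nat.sub_le _ _)
      have h8 : A n' ^ 2 ≤ (t₀ * Q ^ m) ^ 2 := pow_le_pow_left₀ hAn.le h6 2
      have hhi' : Q ^ m * L * t₀ ^ 2 ≤ Q ^ (D + 1) := hhi
      calc Q ^ (m - n') * L * A n' ^ 2 ≤ (Q ^ m * L) * (t₀ * Q ^ m) ^ 2 :=
            mul_le_mul (mul_le_mul_of_nonneg_right h7 hL0.le) h8 (by positivity) (by positivity)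
        _ = (Q ^ m * L * t₀ ^ 2) * (Q ^ m * Q ^ m) := by ring
        _ ≤ Q ^ (D + 1) * (Q ^ m * Q ^ m) :=
            mul_le_mul_of_nonneg_right hhi' (by positivity)
        _ = Q ^ (D + 1 + (m + m : ℝ)) := by
            rw [Real.rpow_add hQ0 (D + 1), Real.rpow_add hQ0 (m : ℝ) m, Real.rpow_natCast]
        _ ≤ Q ^ (22 * D) := Real.rpow_le_rpow_of_exponent_le hQ1.le (by linarith)
    refine h4.trans (mul_le_mul_of_nonneg_left ?_ (by linarith))
    calc (Q ^ (m - n') * L * A n' ^ 2) ^ th ≤ (Q ^ (22 * D)) ^ th :=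
          Real.rpow_le_rpow (by positivity) h5 hth0.le
      _ = Q ^ (22 * D * th) := (Real.rpow_mul hQ0.le _ _).symm
      _ ≤ Q ^ (dG / 4) := Real.rpow_le_rpow_of_exponent_le hQ1.le (by linarith)
  -- the end
  have hF00 : ((q : ℝ) ^ m * L) ^ 6 * t₀ ^ 12 * volume.real (W 0) ≤ 2 ^ (12 * m) * F 0 := by
    have h1 := hch.A_lo 0 (Nat.zero_le _)
    have h2 : t₀ ≤ 2 ^ m * A 0 := by
      rw [div_le_iff₀ (by positivity)] at h1
      linarith
    have h3 : t₀ ^ 12 ≤ (2 ^ m * A 0) ^ 12 := pow_le_pow_left₀ ht₀.le h2 12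
    rw [hF]
    simp only [Nat.sub_zero]
    rw [← hQ]
    have h4 : (2 : ℝ) ^ (12 * m) = (2 ^ m) ^ 12 := by
      rw [← pow_mul, mul_comm]
    rw [h4]
    have h5 := measureReal_nonneg (μ := (volume : Measure (X 3))) (s := W 0)
    calc (Q ^ m * (L : ℝ)) ^ 6 * t₀ ^ 12 * volume.real (W 0)
        ≤ (Q ^ m * (L : ℝ)) ^ 6 * (2 ^ m * A 0) ^ 12 * volume.real (W 0) :=
          mul_le_mul_of_nonneg_right (mul_le_mul_of_nonneg_left h3 (by positivity)) h5
      _ = (2 ^ m) ^ 12 * ((Q ^ m * (L : ℝ)) ^ 6 * volume.real (W 0) * A 0 ^ 12) := by ring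
  have hK' : K ^ n' ≤ (400 * T ^ 12) ^ m * Q ^ (dG / 8) := by
    have h1 : K ^ n' ≤ K ^ m := pow_le_pow_right₀ hKone (by omega)
    have h2 : K ^ m = (400 * T ^ 12) ^ m * Q ^ (18 * ε * m) := by
      have h3 : K = (400 * T ^ 12) * rho ^ 18 := by
        rw [hK]
        ring
      rw [h3, mul_pow]
      congr 1
      rw [← pow_mul, hrho, ← hQ, ← Real.rpow_natCast (Q ^ ε) (18 * m), ← Real.rpow_mul hQ0.le]
      congr 1
      push_cast
      ring
    rw [h2] at h1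
    refine h1.trans (mul_le_mul_of_nonneg_left ?_ (by positivity))
    exact Real.rpow_le_rpow_of_exponent_le hQ1.le hεm
  have hfin := hind n' le_rfl
  have hx' : Q ^ (-∑ j ∈ range n', x j) ≤ Q ^ (-dG) :=
    Real.rpow_le_rpow_of_exponent_le hQ1.le (by linarith)
  have hFn0 := hF0 n' (by omega)
  calc ((q : ℝ) ^ m * L) ^ 6 * t₀ ^ 12 * volume.real (W 0) ≤ 2 ^ (12 * m) * F 0 := hF00
    _ ≤ 2 ^ (12 * m) * (K ^ n' * Q ^ (-∑ j ∈ range n', x j) * F n') :=
        mul_le_mul_of_nonneg_left hfin (by positivity)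
    _ ≤ 2 ^ (12 * m) * (((400 * T ^ 12) ^ m * Q ^ (dG / 8)) * Q ^ (-dG) *
          (C * Q ^ (dG / 4))) := by
        refine mul_le_mul_of_nonneg_left ?_ (by positivity)
        refine mul_le_mul ?_ hFn hFn0 (by positivity)
        exact mul_le_mul hK' hx' (by positivity) (by positivity)
    _ = K1 * (Q ^ (dG / 8) * Q ^ (-dG) * Q ^ (dG / 4)) := by rw [hK1]; ring
    _ ≤ Q ^ (dG / 8) * (Q ^ (dG / 8) * Q ^ (-dG) * Q ^ (dG / 4)) :=
        mul_le_mul_of_nonneg_right hKb (by positivity)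
    _ = Q ^ (-(dG / 2)) := by
        rw [← Real.rpow_add hQ0, ← Real.rpow_add hQ0, ← Real.rpow_add hQ0]
        congr 1
        ring
    _ ≤ Q ^ (-(min (dG / 2) 1)) :=
        Real.rpow_le_rpow_of_exponent_le hQ1.le (neg_le_neg (min_le_left _ _))
    _ = (q : ℝ) ^ (-(min (dG / 2) 1)) := by rw [hQ]

end Pool.Agent.H33.CLV
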