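import Pool.Agent.H24.CL.Targets

/-!
Row FB of the board clv_modules: the fibres of the incidences.
-/

set_option autoImplicit false

open Finset MeasureTheory

namespace Pool.Agent.H33.CLV

open Pool.Agent.H24.CL

/-- double counting -/
theorem dcount {α β : Type} [DecidableEq α] [DecidableEq β] (Y : Finset α) (U : Finset β)
    (D : α → Finset β) (hD : ∀ w ∈ Y, D w ⊆ U) (M : ℝ)
    (hM : ∀ b ∈ U, ((Y.filter fun w => b ∈ D w).card : ℝ) ≤ M) :
    ∑ w ∈ Y, ((D w).card : ℝ) ≤ (U.card : ℝ) * M := by
  have h1 : ∑ w ∈ Y, ((D w).card : ℝ) = ∑ w ∈ Y, ∑ b ∈ U, if b ∈ D w then (1 : ℝ) else 0 := by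
    refine Finset.sum_congr rfl fun w hw => ?_
    rw [← Finset.sum_filter, Finset.sum_const, nsmul_eq_mul, mul_one]
    congr 2
    ext b
    rw [Finset.mem_filter]
    exact ⟨fun h => ⟨hD w hw h, h⟩, fun h => h.2⟩
  rw [h1, Finset.sum_comm]
  have h2 : ∀ b ∈ U, ∑ w ∈ Y, (if b ∈ D w then (1 : ℝ) else 0) ≤ M := by
    intro b hb
    rw [← Finset.sum_filter, Finset.sum_const, nsmul_eq_mul, mul_one]
    exact hM b hb
  refine (Finset.sum_le_sum h2).trans (le_of_eq ?_)
  rw [Finset.sum_const, nsmul_eq_mul]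

variable {q : ℕ} [Fact q.Prime]

theorem two_ne (hq : 3 < q) : (2 : ZMod q) ≠ 0 := by
  intro h
  have h1 : ((2 : ℕ) : ZMod q) = 0 := by exact_mod_cast h
  rw [ZMod.natCast_eq_zero_iff] at h1
  have := Nat.le_of_dvd (by norm_num) h1
  omega

theorem three_ne (hq : 3 < q) : (3 : ZMod q) ≠ 0 := by
  intro h
  have h1 : ((3 : ℕ) : ZMod q) = 0 := by exact_mod_cast h
  rw [ZMod.natCast_eq_zero_iff] at h1
  have := Nat.le_of_dvd (by norm_num) h1
  omega

/-- a vector with three equal coordinates -/
theorem v3_ext {w w' : V3 q} (h0 : w 0 = w' 0) (h1 : w 1 = w' 1) (h2 : w 2 = w' 2) : w = w' := by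
  funext i
  fin_cases i
  · exact h0
  · exact h1
  · exact h2

theorem fibA (hq : 3 < q) (b b1 r s : ZMod q) (hb : b1 ≠ b) (w w' : V3 q) (h1 : Zv w b = r)
    (h2 : Zw w b = s) (h1' : Zv w' b = r) (h2' : Zw w' b = s) (h3 : Zv w b1 = Zv w' b1) :
    w = w' := by
  simp only [Zv, Zw] at h1 h2 h1' h2' h3
  have e1 : (3 : ZMod q) * (b1 - b) ^ 2 * (w 2 - w' 2) = 0 := by
    linear_combination h3 - h1 + h1' - 2 * (b1 - b) * h2 + 2 * (b1 - b) * h2'
  have e2 : w 2 = w' 2 := by
    have h4 : (3 : ZMod q) * (b1 - b) ^ 2 ≠ 0 :=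
      mul_ne_zero (three_ne hq) (pow_ne_zero 2 (sub_ne_zero.2 hb))
    have h5 := (mul_eq_zero.1 e1).resolve_left h4
    exact sub_eq_zero.1 h5
  have e3 : w 1 = w' 1 := by
    linear_combination h2 - h2' - 3 * b * e2
  have e4 : w 0 = w' 0 := by
    linear_combination h1 - h1' - 2 * b * e3 - 3 * b ^ 2 * e2
  exact v3_ext e4 e3 e2

theorem fibB (hq : 3 < q) (b b1 b2 : ZMod q) (hb1 : b1 ≠ b) (hb2 : b2 ≠ b) (hb12 : b1 ≠ b2)
    (w w' : V3 q) (h : Zv w b = Zv w' b) (h1 : Zv w b1 = Zv w' b1) (h2 : Zv w b2 = Zv w' b2) :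
    w = w' := by
  simp only [Zv] at h h1 h2
  have e1 : (3 : ZMod q) * ((b1 - b) * (b2 - b) * (b2 - b1)) * (w 2 - w' 2) = 0 := by
    linear_combination (b2 - b1) * h - (b2 - b) * h1 + (b1 - b) * h2
  have e2 : w 2 = w' 2 := by
    have h4 : (3 : ZMod q) * ((b1 - b) * (b2 - b) * (b2 - b1)) ≠ 0 :=
      mul_ne_zero (three_ne hq) (mul_ne_zero (mul_ne_zero (sub_ne_zero.2 hb1) (sub_ne_zero.2 hb2))
        (sub_ne_zero.2 hb12.symm))
    exact sub_eq_zero.1 ((mul_eq_zero.1 e1).resolve_left h4)
  have e3 : w 1 = w' 1 := by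
    have h5 : (2 : ZMod q) * (b1 - b) * (w 1 - w' 1) = 0 := by
      linear_combination h1 - h - 3 * (b1 ^ 2 - b ^ 2) * e2
    have h6 : (2 : ZMod q) * (b1 - b) ≠ 0 := mul_ne_zero (two_ne hq) (sub_ne_zero.2 hb1)
    exact sub_eq_zero.1 ((mul_eq_zero.1 h5).resolve_left h6)
  have e4 : w 0 = w' 0 := by
    linear_combination h - 2 * b * e3 - 3 * b ^ 2 * e2
  exact v3_ext e4 e3 e2

theorem card_le_q (b r s : ZMod q) (Y : Finset (V3 q))
    (hY : ∀ w ∈ Y, Zv w b = r ∧ Zw w b = s) : (Y.card : ℝ) ≤ q := by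
  classical
  have h1 : Y.card ≤ (univ : Finset (ZMod q)).card := by
    refine Finset.card_le_card_of_injOn (fun w => w 2) (fun _ _ => Finset.mem_univ _) ?_
    intro w hw w' hw' h
    obtain ⟨h1, h2⟩ := hY w hw
    obtain ⟨h1', h2'⟩ := hY w' hw'
    simp only [Zv, Zw] at h1 h2 h1' h2'
    have e2 : w 2 = w' 2 := h
    have e3 : w 1 = w' 1 := by linear_combination h2 - h2' - 3 * b * e2
    have e4 : w 0 = w' 0 := by linear_combination h1 - h1' - 2 * b * e3 - 3 * b ^ 2 * e2
    exact v3_ext e4 e3 e2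
  rw [Finset.card_univ, ZMod.card] at h1
  exact_mod_cast h1

theorem card_le_q2 (b t : ZMod q) (Y : Finset (V3 q)) (hY : ∀ w ∈ Y, Zv w b = t) :
    (Y.card : ℝ) ≤ (q : ℝ) ^ 2 := by
  classical
  have h1 : Y.card ≤ (univ : Finset (ZMod q × ZMod q)).card := by
    refine Finset.card_le_card_of_injOn (fun w => (w 1, w 2)) (fun _ _ => Finset.mem_univ _) ?_
    intro w hw w' hw' h
    have h1 := hY w hw
    have h1' := hY w' hw'
    simp only [Zv] at h1 h1'
    have e3 : w 1 = w' 1 := congrArg Prod.fst h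
    have e2 : w 2 = w' 2 := congrArg Prod.snd h
    have e4 : w 0 = w' 0 := by linear_combination h1 - h1' - 2 * b * e3 - 3 * b ^ 2 * e2
    exact v3_ext e4 e3 e2
  rw [Finset.card_univ, Fintype.card_prod, ZMod.card] at h1
  have h2 : (Y.card : ℝ) ≤ ((q * q : ℕ) : ℝ) := by exact_mod_cast h1
  rw [Nat.cast_mul] at h2
  rw [sq]
  exact h2

theorem pf_FB : T_FB := by
  classical
  intro q _ hq A0 A1 kap n F E R S hO
  have hq0 : (0 : ℝ) < q := by exact_mod_cast (by omega : 0 < q)
  have hn0 : (0 : ℝ) < n := lt_of_lt_of_le one_pos hO.hn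
  refine ⟨?_, ?_⟩
  · intro b r s Y hY
    have c1 : (Y.card : ℝ) ≤ q := card_le_q b r s Y fun w hw => (hY w hw).2
    have c2 : (Y.card : ℝ) ≤ 4 * (q * (R / n)) := by
      by_cases hn2 : n < 2
      · have h1 : (1 : ℝ) / 2 ≤ R / n := by
          rw [div_le_div_iff₀ (by norm_num) hn0]
          linarith [hO.hR]
        nlinarith
      · push Not at hn2
        have hD : ∀ w : V3 q, ∃ D : Finset (ZMod q), w ∈ Y → (n ≤ (D.card : ℝ) ∧
            ∀ b1 ∈ D, ∃ s t, (Zv w b1, s, t) ∈ A1 b1) := by
          intro w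
          by_cases hw : w ∈ Y
          · obtain ⟨⟨w2, w1, hA⟩, -⟩ := hY w hw
            obtain ⟨D, h1, h2⟩ := hO.h0 _ hA
            exact ⟨D, fun _ => ⟨h1, fun b1 hb1 => ⟨_, _, h2 b1 hb1⟩⟩⟩
          · exact ⟨∅, fun h => absurd h hw⟩
        choose D hD using hD
        have h1 := dcount Y (univ.erase b) (fun w => (D w).erase b)
          (fun w _ => Finset.erase_subset_erase _ (Finset.subset_univ _)) R (by
            intro b1 hb1
            have hne : b1 ≠ b := Finset.ne_of_mem_erase hb1
            have e1 : ((Y.filter fun w => b1 ∈ (D w).erase b).image fun w => Zv w b1).card =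
                (Y.filter fun w => b1 ∈ (D w).erase b).card := by
              refine Finset.card_image_of_injOn ?_
              intro w hw w' hw' h
              rw [Finset.mem_coe, Finset.mem_filter] at hw hw'
              exact fibA hq b b1 r s hne w w' (hY w hw.1).2.1 (hY w hw.1).2.2 (hY w' hw'.1).2.1
                (hY w' hw'.1).2.2 h
            rw [← e1]
            refine hO.h3 b1 _ ?_
            intro r1 hr1
            rw [Finset.mem_image] at hr1
            obtain ⟨w, hw, rfl⟩ := hr1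
            rw [Finset.mem_filter] at hw
            exact (hD w hw.1).2 b1 (Finset.mem_of_mem_erase hw.2))
        have h2 : (Y.card : ℝ) * (n - 1) ≤ ∑ w ∈ Y, (((D w).erase b).card : ℝ) := by
          rw [← nsmul_eq_mul, ← Finset.sum_const]
          refine Finset.sum_le_sum fun w hw => ?_
          have h3 := (hD w hw).1
          have h4 : (D w).card ≤ ((D w).erase b).card + 1 := by
            have := Finset.pred_card_le_card_erase (s := D w) (a := b)
            omega
          have h5 : ((D w).card : ℝ) ≤ (((D w).erase b).card : ℝ) + 1 := by exact_mod_cast h4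
          linarith
        have h3 : ((univ.erase b : Finset (ZMod q)).card : ℝ) * R ≤ q * R := by
          refine mul_le_mul_of_nonneg_right ?_ (by linarith [hO.hR])
          have h4 : (univ.erase b : Finset (ZMod q)).card ≤ (univ : Finset (ZMod q)).card :=
            Finset.card_le_card (Finset.erase_subset _ _)
          rw [Finset.card_univ, ZMod.card] at h4
          exact_mod_cast h4
        have h4 : (Y.card : ℝ) * (n / 2) ≤ q * R := by
          have h5 : (0 : ℝ) ≤ (Y.card : ℝ) := Nat.cast_nonneg _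
          nlinarith
        have h6 : 4 * (q * (R / n)) = 4 * (q * R) / n := by ring
        rw [h6, le_div_iff₀ hn0]
        have h7 : 0 ≤ q * R := by
          have := hO.hR
          positivity
        linarith
    rcases min_choice (1 : ℝ) (R / n) with h | h
    · rw [h]
      linarith
    · rw [h]
      exact c2
  · intro b t w3 Y hY
    have hE0 : (0 : ℝ) ≤ E := by linarith [hO.hE]
    have c1 : (Y.card : ℝ) ≤ (q : ℝ) ^ 2 := card_le_q2 b (t - kap b w3) Y fun w hw => by
      have := (hY w hw).2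
      linear_combination this
    have hm0 : 0 ≤ min 1 (E / n) := le_min zero_le_one (div_nonneg hE0 hn0.le)
    by_cases hn4 : n < 4
    · have h1 : (1 : ℝ) / 4 ≤ min 1 (E / n) := by
        refine le_min (by norm_num) ?_
        rw [div_le_div_iff₀ (by norm_num) hn0]
        linarith [hO.hE]
      have h2 : (q : ℝ) / 4 ≤ q * min 1 (E / n) := by nlinarith
      have h3 : ((q : ℝ) / 4) ^ 2 ≤ (q * min 1 (E / n)) ^ 2 :=
        pow_le_pow_left₀ (by positivity) h2 2
      nlinarith
    · push Not at hn4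
      rcases le_or_gt 1 (E / n) with hEn | hEn
      · rw [min_eq_left hEn, mul_one]
        nlinarith [sq_nonneg (q : ℝ)]
      · rw [min_eq_right hEn.le]
        have hD : ∀ w : V3 q, ∃ D : Finset (ZMod q), w ∈ Y → (n ≤ (D.card : ℝ) ∧
            ∀ b1 ∈ D, (Zv w3 b1, Zw w3 b1, Zv w b1 + kap b1 w3) ∈ A1 b1) := by
          intro w
          by_cases hw : w ∈ Y
          · obtain ⟨⟨w1, hA⟩, -⟩ := hY w hw
            obtain ⟨D, h1, h2⟩ := hO.h0 _ hA
            exact ⟨D, fun _ => ⟨h1, fun b1 hb1 => h2 b1 hb1⟩⟩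
          · exact ⟨∅, fun h => absurd h hw⟩
        choose D hD using hD
        set U : Finset (ZMod q × ZMod q) := (univ.erase b).offDiag with hU
        have h1 := dcount Y U (fun w => ((D w).erase b).offDiag)
          (fun w _ => Finset.offDiag_mono (Finset.erase_subset_erase _ (Finset.subset_univ _)))
          (E ^ 2) (by
            rintro ⟨b1, b2⟩ hbb
            rw [hU, Finset.mem_offDiag] at hbb
            obtain ⟨hb1, hb2, hb12⟩ := hbb
            have hne1 : b1 ≠ b := Finset.ne_of_mem_erase hb1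
            have hne2 : b2 ≠ b := Finset.ne_of_mem_erase hb2
            simp only at hb12
            obtain ⟨Y', hY'⟩ : ∃ Y' : Finset (V3 q),
              Y' = Y.filter fun w => (b1, b2) ∈ ((D w).erase b).offDiag := ⟨_, rfl⟩
            rw [← hY']
            have hmem : ∀ w ∈ Y', w ∈ Y ∧ b1 ∈ D w ∧ b2 ∈ D w := by
              intro w hw
              rw [hY', Finset.mem_filter, Finset.mem_offDiag] at hw
              exact ⟨hw.1, Finset.mem_of_mem_erase hw.2.1, Finset.mem_of_mem_erase hw.2.2.1⟩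
            obtain ⟨T1, hT1⟩ : ∃ T1 : Finset (ZMod q),
              T1 = Y'.image fun w => Zv w b1 + kap b1 w3 := ⟨_, rfl⟩
            obtain ⟨T2, hT2⟩ : ∃ T2 : Finset (ZMod q),
              T2 = Y'.image fun w => Zv w b2 + kap b2 w3 := ⟨_, rfl⟩
            have k1 : (T1.card : ℝ) ≤ E := by
              refine hO.h2 b1 (Zv w3 b1) (Zw w3 b1) T1 ?_
              intro t1 ht1
              rw [hT1, Finset.mem_image] at ht1
              obtain ⟨w, hw, rfl⟩ := ht1
              obtain ⟨m1, m2, m3⟩ := hmem w hw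
              exact (hD w m1).2 b1 m2
            have k2 : (T2.card : ℝ) ≤ E := by
              refine hO.h2 b2 (Zv w3 b2) (Zw w3 b2) T2 ?_
              intro t1 ht1
              rw [hT2, Finset.mem_image] at ht1
              obtain ⟨w, hw, rfl⟩ := ht1
              obtain ⟨m1, m2, m3⟩ := hmem w hw
              exact (hD w m1).2 b2 m3
            have k3 : Y'.card ≤ (T1 ×ˢ T2).card := by
              refine Finset.card_le_card_of_injOn
                (fun w => (Zv w b1 + kap b1 w3, Zv w b2 + kap b2 w3)) ?_ ?_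
              · intro w hw
                rw [Finset.mem_coe] at hw ⊢
                rw [Finset.mem_product, hT1, hT2]
                exact ⟨Finset.mem_image_of_mem _ hw, Finset.mem_image_of_mem _ hw⟩
              · intro w hw w' hw' h
                rw [Finset.mem_coe] at hw hw'
                have e1 : Zv w b1 + kap b1 w3 = Zv w' b1 + kap b1 w3 := congrArg Prod.fst h
                have e2 : Zv w b2 + kap b2 w3 = Zv w' b2 + kap b2 w3 := congrArg Prod.snd h
                have m1 := (hY w (hmem w hw).1).2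
                have m2 := (hY w' (hmem w' hw').1).2
                exact fibB hq b b1 b2 hne1 hne2 hb12 w w' (add_right_cancel (m1.trans m2.symm))
                  (add_right_cancel e1) (add_right_cancel e2)
            rw [Finset.card_product] at k3
            have k4 : (Y'.card : ℝ) ≤ (T1.card : ℝ) * T2.card := by exact_mod_cast k3
            have k5 : (0 : ℝ) ≤ T2.card := Nat.cast_nonneg _
            nlinarith)
        have h2 : (Y.card : ℝ) * ((n - 1) * (n - 2)) ≤
            ∑ w ∈ Y, ((((D w).erase b).offDiag).card : ℝ) := by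
          rw [← nsmul_eq_mul, ← Finset.sum_const]
          refine Finset.sum_le_sum fun w hw => ?_
          have h3 := (hD w hw).1
          have h4 : (D w).card ≤ ((D w).erase b).card + 1 := by
            have := Finset.pred_card_le_card_erase (s := D w) (a := b)
            omega
          have h5 : ((D w).card : ℝ) ≤ (((D w).erase b).card : ℝ) + 1 := by exact_mod_cast h4
          rw [Finset.offDiag_card]
          obtain ⟨c, hc⟩ : ∃ c : ℕ, c = ((D w).erase b).card := ⟨_, rfl⟩
          rw [← hc] at h5 ⊢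
          have h6 : c ≤ c * c := Nat.le_mul_self c
          rw [Nat.cast_sub h6, Nat.cast_mul]
          have h7 : n - 1 ≤ (c : ℝ) := by linarith
          nlinarith
        have h3 : (U.card : ℝ) * E ^ 2 ≤ q ^ 2 * E ^ 2 := by
          refine mul_le_mul_of_nonneg_right ?_ (sq_nonneg _)
          have h4 : U.card ≤ (univ : Finset (ZMod q × ZMod q)).card :=
            Finset.card_le_card (Finset.subset_univ _)
          rw [Finset.card_univ, Fintype.card_prod, ZMod.card] at h4
          have h5 : (U.card : ℝ) ≤ ((q * q : ℕ) : ℝ) := by exact_mod_cast h4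
          rw [Nat.cast_mul] at h5
          rw [sq]
          exact h5
        have h4 : (Y.card : ℝ) * (n ^ 2 / 16) ≤ q ^ 2 * E ^ 2 := by
          have h5 : (0 : ℝ) ≤ (Y.card : ℝ) := Nat.cast_nonneg _
          have h6 : n ^ 2 / 16 ≤ (n - 1) * (n - 2) := by nlinarith
          nlinarith [mul_le_mul_of_nonneg_left h6 h5]
        have h6 : 16 * (q * (E / n)) ^ 2 = 16 * (q ^ 2 * E ^ 2) / n ^ 2 := by
          field_simp
        rw [h6, le_div_iff₀ (by positivity)]
        linarith

end Pool.Agent.H33.CLV
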