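import Pool.Agent.H24.CL.Targets

/-!
Row O3 of the board clv_modules: the step with Lemma S.
-/

set_option autoImplicit false

open Finset MeasureTheory

namespace Pool.Agent.H33.CLV

open Pool.Agent.H24.CL

theorem pf_O3 (hJ : T_JO) (hL : T_LS) : T_O3 := by
  classical
  intro q _ hq A0 A1 kap n F E R S hO hE hS
  have hq0 : (0 : ℝ) < q := by exact_mod_cast (by omega : 0 < q)
  have hn0 : (0 : ℝ) < n := lt_of_lt_of_le one_pos hO.hn
  have hF0 : (0 : ℝ) ≤ F := by linarith [hO.hF]
  have hE0 : (0 : ℝ) ≤ E := by linarith [hO.hE]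
  have hS0 : (0 : ℝ) ≤ S := by linarith [hO.hS]
  obtain ⟨W3, hW3⟩ : ∃ W3 : Finset (V3 q), W3 = A0.image fun w => w.1 := ⟨_, rfl⟩
  obtain ⟨P, hP⟩ : ∃ P : Finset (V3 q × V3 q), P = A0.image fun w => (w.1, w.2.1) := ⟨_, rfl⟩
  -- the number of the first digits
  have hfst : ∀ w ∈ W3, ∃ w2 w1, (w, w2, w1) ∈ A0 := by
    intro w hw
    rw [hW3, Finset.mem_image] at hw
    obtain ⟨⟨w3, w2, w1⟩, h1, h2⟩ := hw
    simp only at h2
    rw [← h2]
    exact ⟨w2, w1, h1⟩
  have s1 : (A0.card : ℝ) ≤ F * P.card := by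
    have h1 : A0.card = ∑ x ∈ P, (A0.filter fun w => (w.1, w.2.1) = x).card :=
      Finset.card_eq_sum_card_fiberwise fun w hw => by
        rw [Finset.mem_coe] at hw ⊢
        rw [hP]
        exact Finset.mem_image_of_mem _ hw
    have h2 : (A0.card : ℝ) = ∑ x ∈ P, ((A0.filter fun w => (w.1, w.2.1) = x).card : ℝ) := by
      rw [h1]
      push_cast
      rfl
    rw [h2]
    have h3 : ∀ x ∈ P, ((A0.filter fun w => (w.1, w.2.1) = x).card : ℝ) ≤ F := by
      rintro ⟨w3, w2⟩ _
      have h4 : ((A0.filter fun w => (w.1, w.2.1) = (w3, w2)).image fun w => w.2.2).card =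
          (A0.filter fun w => (w.1, w.2.1) = (w3, w2)).card := by
        refine Finset.card_image_of_injOn ?_
        rintro ⟨a1, a2, a3⟩ ha ⟨b1, b2, b3⟩ hb h
        rw [Finset.mem_coe, Finset.mem_filter] at ha hb
        have ea := ha.2
        have eb := hb.2
        simp only [Prod.mk.injEq] at ea eb
        simp only at h
        rw [ea.1, ea.2, eb.1, eb.2, h]
      rw [← h4]
      refine hO.h1 w3 w2 _ ?_
      intro w1 hw1
      rw [Finset.mem_image] at hw1
      obtain ⟨⟨a1, a2, a3⟩, ha, rfl⟩ := hw1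
      rw [Finset.mem_filter] at ha
      have ea := ha.2
      simp only [Prod.mk.injEq] at ea
      simp only
      rw [← ea.1, ← ea.2]
      exact ha.1
    refine (Finset.sum_le_sum h3).trans (le_of_eq ?_)
    rw [Finset.sum_const, nsmul_eq_mul, mul_comm]
  have s2 : n * (P.card : ℝ) ≤ W3.card * (2 * (q * E)) := by
    have h1 : P.card = ∑ x ∈ W3, (P.filter fun w => w.1 = x).card :=
      Finset.card_eq_sum_card_fiberwise fun w hw => by
        rw [Finset.mem_coe] at hw ⊢
        rw [hP, Finset.mem_image] at hw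
        obtain ⟨v, hv, rfl⟩ := hw
        rw [hW3]
        exact Finset.mem_image_of_mem _ hv
    have h2 : (P.card : ℝ) = ∑ x ∈ W3, ((P.filter fun w => w.1 = x).card : ℝ) := by
      rw [h1]
      push_cast
      rfl
    rw [h2, Finset.mul_sum]
    have h3 : ∀ x ∈ W3, n * ((P.filter fun w => w.1 = x).card : ℝ) ≤ 2 * (q * E) := by
      intro w3 _
      have h4 : ((P.filter fun w => w.1 = w3).image fun w => w.2).card =
          (P.filter fun w => w.1 = w3).card := by
        refine Finset.card_image_of_injOn ?_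
        rintro ⟨a1, a2⟩ ha ⟨b1, b2⟩ hb h
        rw [Finset.mem_coe, Finset.mem_filter] at ha hb
        have ea := ha.2
        have eb := hb.2
        simp only at ea eb h
        rw [ea, eb, h]
      rw [← h4]
      refine (hJ q hq A0 A1 kap n F E R S hO hE w3 _ ?_).trans ?_
      · intro w2 hw2
        rw [Finset.mem_image] at hw2
        obtain ⟨⟨a1, a2⟩, ha, rfl⟩ := hw2
        rw [Finset.mem_filter, hP, Finset.mem_image] at ha
        obtain ⟨⟨⟨v3, v2, v1⟩, hv, hv'⟩, ha2⟩ := ha
        simp only [Prod.mk.injEq] at hv' ha2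
        simp only
        rw [← ha2, ← hv'.1, ← hv'.2]
        exact ⟨v1, hv⟩
      · refine mul_le_mul_of_nonneg_left ?_ (by norm_num)
        have h5 : ∀ b ∈ (univ : Finset (ZMod q)),
            (((univ : Finset (ZMod q)).filter fun t => (Zv w3 b, Zw w3 b, t) ∈ A1 b).card : ℝ) ≤
              E := by
          intro b _
          refine hO.h2 b (Zv w3 b) (Zw w3 b) _ ?_
          intro t ht
          rw [Finset.mem_filter] at ht
          exact ht.2
        refine (Finset.sum_le_sum h5).trans (le_of_eq ?_)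
        rw [Finset.sum_const, nsmul_eq_mul, Finset.card_univ, ZMod.card]
    refine (Finset.sum_le_sum h3).trans (le_of_eq ?_)
    rw [Finset.sum_const, nsmul_eq_mul]
  -- Lemma S
  obtain ⟨Sb, hSb⟩ : ∃ Sb : ZMod q → Finset (ZMod q × ZMod q),
    Sb = fun b => (A1 b).image fun v => (v.1, v.2.1) := ⟨_, rfl⟩
  have hSc : ∀ b, ((Sb b).card : ℝ) ≤ (A1 b).card := by
    intro b
    rw [hSb]
    exact_mod_cast Finset.card_image_le
  have hSq : ∀ b, ((Sb b).card : ℝ) ≤ q * S := by
    intro b
    have h1 : (Sb b).card = ∑ r ∈ (univ : Finset (ZMod q)),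
        ((Sb b).filter fun v => v.1 = r).card :=
      Finset.card_eq_sum_card_fiberwise fun w _ => by
        rw [Finset.mem_coe]
        exact Finset.mem_univ _
    have h2 : ((Sb b).card : ℝ) = ∑ r ∈ (univ : Finset (ZMod q)),
        (((Sb b).filter fun v => v.1 = r).card : ℝ) := by
      rw [h1]
      push_cast
      rfl
    rw [h2]
    have h3 : ∀ r ∈ (univ : Finset (ZMod q)),
        (((Sb b).filter fun v => v.1 = r).card : ℝ) ≤ S := by
      intro r _
      have h4 : (((Sb b).filter fun v => v.1 = r).image fun v => v.2).card =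
          ((Sb b).filter fun v => v.1 = r).card := by
        refine Finset.card_image_of_injOn ?_
        rintro ⟨a1, a2⟩ ha ⟨b1, b2⟩ hb h
        rw [Finset.mem_coe, Finset.mem_filter] at ha hb
        have ea := ha.2
        have eb := hb.2
        simp only at ea eb h
        rw [ea, eb, h]
      rw [← h4]
      refine hO.h4 b r _ ?_
      intro s hs
      rw [Finset.mem_image] at hs
      obtain ⟨⟨a1, a2⟩, ha, rfl⟩ := hs
      rw [Finset.mem_filter, hSb, Finset.mem_image] at ha
      obtain ⟨⟨⟨v1, v2, v3⟩, hv, hv'⟩, ha2⟩ := ha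
      simp only [Prod.mk.injEq] at hv' ha2
      simp only
      rw [← ha2, ← hv'.1, ← hv'.2]
      exact ⟨v3, hv⟩
    refine (Finset.sum_le_sum h3).trans (le_of_eq ?_)
    rw [Finset.sum_const, nsmul_eq_mul, Finset.card_univ, ZMod.card]
  have s3 : (W3.card : ℝ) * n ^ 2 ≤ 8 * q * ∑ b, ((A1 b).card : ℝ) := by
    have h1 : (∑ b, ((Sb b).card : ℝ)) * 2 ≤ n * (q : ℝ) ^ 2 := by
      have h2 : ∑ b, ((Sb b).card : ℝ) ≤ q * (q * S) := by
        refine (Finset.sum_le_sum fun b _ => hSq b).trans (le_of_eq ?_)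
        rw [Finset.sum_const, nsmul_eq_mul, Finset.card_univ, ZMod.card]
      have h3 : (q : ℝ) ^ 2 * (2 * S) ≤ q ^ 2 * n :=
        mul_le_mul_of_nonneg_left hS (sq_nonneg _)
      nlinarith
    have h2 := hL q hq Sb W3 n hn0 h1 (by
      intro w hw
      obtain ⟨w2, w1, hA⟩ := hfst w hw
      obtain ⟨D, hD1, hD2⟩ := hO.h0 _ hA
      refine ⟨D, hD1, fun b hb => ?_⟩
      rw [hSb]
      exact Finset.mem_image.2 ⟨_, hD2 b hb, rfl⟩)
    refine h2.trans ?_
    refine mul_le_mul_of_nonneg_left ?_ (by positivity)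
    exact Finset.sum_le_sum fun b _ => hSc b
  have hW0 : (0 : ℝ) ≤ W3.card := Nat.cast_nonneg _
  have t1 : n * (A0.card : ℝ) ≤ F * (W3.card * (2 * (q * E))) := by
    calc n * (A0.card : ℝ) ≤ n * (F * P.card) := mul_le_mul_of_nonneg_left s1 hn0.le
      _ = F * (n * P.card) := by ring
      _ ≤ F * (W3.card * (2 * (q * E))) := mul_le_mul_of_nonneg_left s2 hF0
  calc n ^ 3 * (A0.card : ℝ) = n ^ 2 * (n * (A0.card : ℝ)) := by ring
    _ ≤ n ^ 2 * (F * (W3.card * (2 * (q * E)))) :=
        mul_le_mul_of_nonneg_left t1 (sq_nonneg _)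
    _ = (2 * F * q * E) * (W3.card * n ^ 2) := by ring
    _ ≤ (2 * F * q * E) * (8 * q * ∑ b, ((A1 b).card : ℝ)) :=
        mul_le_mul_of_nonneg_left s3 (by positivity)
    _ = 16 * F * q ^ 2 * E * ∑ b, ((A1 b).card : ℝ) := by ring

end Pool.Agent.H33.CLV
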